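import Pool.Agent.H477.O.Stm7
import Pool.Graph.R_seed8.H370R2.Local

set_option autoImplicit false

/-!
# `S_B1`: few zeros of `X^{(j)}` give the Lindelöf-type upper bound (helper196, for helper477)
-/

open Complex Filter Topology Metric Set MeasureTheory
open scoped ComplexConjugate

namespace Pool.Agent.H196.B
open Pool.Agent.H477.O

/-- exponentials beat powers -/
lemma big (j : ℕ) (K ε : ℝ) (hε : 0 < ε) :
    ∃ L : ℝ, ∀ ℓ : ℝ, L ≤ ℓ → (2 * ℓ) ^ j * Real.exp K ≤ Real.exp (ε * ℓ) := by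
  have h := (isLittleO_pow_exp_pos_mul_atTop (k := j) hε).bound
    (c := 1 / (2 ^ j * Real.exp K)) (by positivity)
  obtain ⟨L, hL⟩ := Filter.eventually_atTop.1 h
  refine ⟨max L 0, fun ℓ hℓ => ?_⟩
  have h1 := hL ℓ ((le_max_left _ _).trans hℓ)
  have h0 : 0 ≤ ℓ := (le_max_right _ _).trans hℓ
  rw [Real.norm_of_nonneg (by positivity), Real.norm_of_nonneg (by positivity)] at h1
  have h2 : 0 < (2 : ℝ) ^ j * Real.exp K := by positivity
  rw [div_mul_eq_mul_div, one_mul, le_div_iff₀ h2] at h1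
  calc (2 * ℓ) ^ j * Real.exp K = ℓ ^ j * (2 ^ j * Real.exp K) := by rw [mul_pow]; ring
    _ ≤ _ := h1

/-- extraction of the zeros of an entire function in a closed ball -/
lemma core {F : ℂ → ℂ} {c : ℂ} {r R1 Bd : ℝ} (hr : 0 < r) (hrR : r < R1)
    (hF : Differentiable ℂ F) (hc : F c ≠ 0) (hB : ∀ w ∈ closedBall c R1, ‖F w‖ ≤ Bd) :
    ∃ (s : Multiset ℂ) (g : ℂ → ℂ), (∀ ρ ∈ s, ρ ∈ closedBall c r ∧ F ρ = 0) ∧
      AnalyticOnNhd ℂ g (closedBall c R1) ∧ (∀ z, F z = H370.Loc.Pf s z * g z) ∧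
      (∀ z ∈ closedBall c r, g z ≠ 0) ∧
      (Multiset.card s : ℝ) ≤ ∑ ρ ∈ s.toFinset, (analyticOrderNatAt F ρ : ℝ) ∧
      (∀ w ∈ closedBall c R1, ‖g w‖ ≤ Bd / (R1 - r) ^ (Multiset.card s)) := by
  have hR : 0 < R1 := hr.trans hrR
  have hfa : AnalyticOnNhd ℂ F (closedBall c R1) := fun z _ => hF.analyticAt z
  have hK : IsPreconnected (closedBall c R1) := (convex_closedBall c R1).isPreconnected
  have hcR : c ∈ closedBall c R1 := mem_closedBall_self hR.le
  have hsub : closedBall c r ⊆ closedBall c R1 := closedBall_subset_closedBall hrR.le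
  obtain ⟨s, g, hs, hg, hfg, hg0, -⟩ := H370.Loc.extract (M := max 1 Bd) hr hrR (le_max_left _ _)
    hfa hc (fun z hz => (hB z hz).trans (le_max_right _ _))
  refine ⟨s, g, hs, hg, hfg, hg0, ?_, ?_⟩
  · have h1 : Multiset.card s = ∑ z ∈ s.toFinset, s.count z := (Multiset.toFinset_sum_count_eq s).symm
    rw [h1]
    push_cast
    refine Finset.sum_le_sum fun z hz => ?_
    have hz' := hsub (hs z (Multiset.mem_toFinset.1 hz)).1
    exact_mod_cast H370.Loc.count_le_mult (hfa z hz')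
      (H370.Loc.order_ne_top hK hfa hcR hc hz') (hg z hz') hfg
  · set n := Multiset.card s with hn
    have hRr0 : 0 < R1 - r := by linarith
    have hgsphere : ∀ w ∈ sphere c R1, ‖g w‖ ≤ Bd / (R1 - r) ^ n := by
      intro w hw
      have hwR := sphere_subset_closedBall hw
      have h1 : (R1 - r) ^ n ≤ ‖H370.Loc.Pf s w‖ := H370.Loc.Pf_norm_ge hRr0.le fun ρ hρ => by
        have h2 := (hs ρ hρ).1
        rw [mem_closedBall, dist_eq_norm] at h2
        rw [mem_sphere, dist_eq_norm] at hw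
        have h3 : ‖w - c‖ ≤ ‖w - ρ‖ + ‖ρ - c‖ := by
          calc ‖w - c‖ = ‖(w - ρ) + (ρ - c)‖ := by congr 1; ring
            _ ≤ _ := norm_add_le _ _
        linarith
      rw [le_div_iff₀ (by positivity)]
      calc ‖g w‖ * (R1 - r) ^ n ≤ ‖g w‖ * ‖H370.Loc.Pf s w‖ :=
            mul_le_mul_of_nonneg_left h1 (norm_nonneg _)
        _ = ‖F w‖ := by rw [hfg w, norm_mul, mul_comm]
        _ ≤ Bd := hB w hwR
    intro w hw
    refine Complex.norm_le_of_forall_mem_frontier_norm_le (U := ball c R1) isBounded_ball ?_ ?_ ?_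
    · apply DifferentiableOn.diffContOnCl
      rw [closure_ball c hR.ne']
      exact fun x hx => (hg x hx).differentiableAt.differentiableWithinAt
    · intro x hx
      rw [frontier_ball c hR.ne'] at hx
      exact hgsphere x hx
    · rwa [closure_ball c hR.ne']

/-- **S_B1** -/
theorem B1_proof (hfar : S_PFAR) (hcr : S_PCR) (hprop : S_PROPB) : S_B1 := by
  intro a K j R V α e ha hα hα4 he hR hV
  have hj0 : (0:ℝ) ≤ j := Nat.cast_nonneg j
  obtain ⟨R1, hR1⟩ : ∃ R1 : ℝ, R1 = a + j + 3 := ⟨_, rfl⟩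
  have hR13 : 3 < R1 := by rw [hR1]; linarith
  have hRR1 : 3 * (R1 + 1) ≤ R := by rw [hR1]; linarith
  obtain ⟨K', ℓ1, hK', hℓ1, hfar'⟩ := hfar a K j R R V (by linarith) (by linarith) (by linarith)
  obtain ⟨K2, hK2, hcr'⟩ := hcr a K j R R V (by linarith) (by linarith) (by linarith)
  obtain ⟨r, hr⟩ : ∃ r : ℝ, r = R1 - α / 4 := ⟨_, rfl⟩
  have hlog4 : 0 ≤ Real.log (4 / α) := Real.log_nonneg (by rw [le_div_iff₀ hα]; linarith)
  obtain ⟨A0, hA0⟩ : ∃ A0 : ℝ, A0 = K2 + Real.log (4 / α) + R1 + K' := ⟨_, rfl⟩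
  have hA0pos : 0 < A0 := by rw [hA0]; linarith
  obtain ⟨η, hη, hpr⟩ := hprop 1 (R1 - α) r A0 (e / 4) one_pos (by linarith)
    (by rw [hr]; linarith) hA0pos (by positivity)
  obtain ⟨ε, hε⟩ : ∃ ε : ℝ, ε = min (η / 2) (e / 4) := ⟨_, rfl⟩
  have hε0 : 0 < ε := by rw [hε]; exact lt_min (by positivity) (by positivity)
  have hε1 : ε ≤ η / 2 := by rw [hε]; exact min_le_left _ _
  have hε2 : ε ≤ e / 4 := by rw [hε]; exact min_le_right _ _
  have hlogR : 0 < Real.log (2 * R1) := Real.log_pos (by linarith)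
  obtain ⟨κ, hκ⟩ : ∃ κ : ℝ, κ = min 1 (ε / Real.log (2 * R1)) := ⟨_, rfl⟩
  have hκ0 : 0 < κ := by rw [hκ]; exact lt_min one_pos (by positivity)
  have hκ1 : κ ≤ 1 := by rw [hκ]; exact min_le_left _ _
  have hκ2 : κ * Real.log (2 * R1) ≤ ε := by
    have : κ ≤ ε / Real.log (2 * R1) := by rw [hκ]; exact min_le_right _ _
    rwa [le_div_iff₀ hlogR] at this
  obtain ⟨ℓ2, hℓ2⟩ := big j (2 * K') ε hε0
  refine ⟨κ, max (max ℓ1 ℓ2) 3, hκ0, le_max_right _ _, ?_⟩
  intro X M ℓ y hX hℓ hfew z hz1 hz2 hz3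
  have hℓ3 : 3 ≤ ℓ := (le_max_right _ _).trans hℓ
  have hℓ0 : 0 ≤ ℓ := by linarith
  have hεη : ε * ℓ ≤ η / 2 * ℓ := mul_le_mul_of_nonneg_right hε1 hℓ0
  have hεe : ε * ℓ ≤ e / 4 * ℓ := mul_le_mul_of_nonneg_right hε2 hℓ0
  have heℓ : 0 ≤ e * ℓ := mul_nonneg he.le hℓ0
  have hηℓ : 0 ≤ η * ℓ := mul_nonneg hη.le hℓ0
  have hℓ1' : ℓ1 ≤ ℓ := ((le_max_left _ _).trans (le_max_left _ _)).trans hℓ
  have hbig := hℓ2 ℓ (((le_max_right _ _).trans (le_max_left _ _)).trans hℓ)
  have hM := hX.hM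
  have hFd : Differentiable ℂ (iteratedDeriv j X) :=
    (hX.diff.contDiff (n := ⊤)).differentiable_iteratedDeriv j (by simp)
  generalize hFF : iteratedDeriv j X = F at hFd hfew ⊢
  have hfar2 : ∀ w : ℂ, 1 / 2 + a + j ≤ w.re → w.re ≤ 1 / 2 + R → |w.im - y| ≤ R →
      F w ≠ 0 ∧ M * Real.exp (ℓ * (w.re - 1 / 2) - K') ≤ ‖F w‖ ∧
      ‖F w‖ ≤ M * (2 * ℓ) ^ j * Real.exp (ℓ * (w.re - 1 / 2) + K') := by
    intro w h1 h2 h3
    have h := hfar' X M ℓ y hX hℓ1' w h1 h2 h3
    rw [hFF] at h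
    exact ⟨h.1, h.2.2.1, h.2.2.2⟩
  have hcr2 : ∀ w : ℂ, |w.re - 1 / 2| ≤ R → |w.im - y| ≤ R → ‖F w‖ ≤ M * Real.exp (K2 * ℓ) := by
    intro w h1 h2
    have h := hcr' X M ℓ y hX (by linarith) w h1 h2
    rwa [hFF] at h
  clear hfar' hcr' hFF hX hfar hcr hprop
  obtain ⟨Q, hQ⟩ : ∃ Q : ℝ, Q = (2 * ℓ) ^ j := ⟨_, rfl⟩
  rw [← hQ] at hbig hfar2
  have hQ1 : 1 ≤ Q := by rw [hQ]; exact one_le_pow₀ (by linarith)
  have hQK : Q * Real.exp K' ≤ Real.exp (ε * ℓ) := by
    refine le_trans ?_ hbig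
    gcongr
    linarith
  by_cases hcase : 1 / 2 + a + j ≤ z.re
  · -- far to the right
    have h := (hfar2 z hcase hz2 (hz3.trans (by linarith))).2.2
    calc ‖F z‖ ≤ M * Q * Real.exp (ℓ * (z.re - 1 / 2) + K') := h
      _ = M * Real.exp (ℓ * (z.re - 1 / 2)) * (Q * Real.exp K') := by rw [Real.exp_add]; ring
      _ ≤ M * Real.exp (ℓ * (z.re - 1 / 2)) * Real.exp (ε * ℓ) := by gcongr
      _ = M * Real.exp (ℓ * (z.re - 1 / 2) + ε * ℓ) := by rw [Real.exp_add]; ring
      _ ≤ _ := by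
        refine mul_le_mul_of_nonneg_left (Real.exp_le_exp.2 ?_) hM.le
        linarith
  · push Not at hcase
    obtain ⟨c, hcdef⟩ : ∃ c : ℂ, c = ⟨1 / 2 + α + R1, z.im⟩ := ⟨_, rfl⟩
    have hcre : c.re = 1 / 2 + α + R1 := by rw [hcdef]
    have hcim : c.im = z.im := by rw [hcdef]
    have habs : ∀ w : ℂ, ∀ x : ℝ, ‖w - c‖ ≤ x → |w.re - c.re| ≤ x ∧ |w.im - c.im| ≤ x := by
      intro w x hw
      refine ⟨?_, ?_⟩
      · have := Complex.abs_re_le_norm (w - c)
        rw [Complex.sub_re] at this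
        linarith
      · have := Complex.abs_im_le_norm (w - c)
        rw [Complex.sub_im] at this
        linarith
    have hbox : ∀ w : ℂ, ‖w - c‖ ≤ R1 → 1 / 2 + α ≤ w.re ∧ w.re ≤ 1 / 2 + R ∧ |w.im - y| ≤ R := by
      intro w hw
      obtain ⟨h1, h2⟩ := habs w R1 hw
      rw [abs_le] at h1 h2 hz3
      rw [hcre] at h1
      rw [hcim] at h2
      refine ⟨by linarith [h1.1], by linarith [h1.2], ?_⟩
      rw [abs_le]
      exact ⟨by linarith [h2.1, hz3.1], by linarith [h2.2, hz3.2]⟩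
    have hcfar := hfar2 c (by rw [hcre, hR1]; linarith) (by rw [hcre]; linarith)
      (by rw [hcim]; exact hz3.trans (by linarith))
    obtain ⟨hFc0, hFclo, hFcup⟩ := hcfar
    have hrpos : 0 < r := by rw [hr]; linarith
    have hrR1 : r < R1 := by rw [hr]; linarith
    obtain ⟨s, g, hs, hg, hfg, hg0, hcard, hgb⟩ := core (Bd := M * Real.exp (K2 * ℓ)) hrpos hrR1 hFd hFc0
      (by
        intro w hw
        rw [mem_closedBall, dist_eq_norm] at hw
        obtain ⟨h1, h2, h3⟩ := hbox w hw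
        refine hcr2 w ?_ h3
        rw [abs_le]
        constructor <;> linarith)
    obtain ⟨n, hn⟩ : ∃ n : ℕ, n = Multiset.card s := ⟨_, rfl⟩
    rw [← hn] at hcard hgb
    have hncard : (n : ℝ) ≤ κ * ℓ := by
      refine hcard.trans (hfew s.toFinset ?_)
      intro ρ hρ
      obtain ⟨h1, h2⟩ := hs ρ (Multiset.mem_toFinset.1 hρ)
      rw [mem_closedBall, dist_eq_norm] at h1
      obtain ⟨h3, h4, h5⟩ := hbox ρ (h1.trans hrR1.le)
      exact ⟨h2, h3, h4, h5⟩
    have hnℓ : (n : ℝ) ≤ ℓ := hncard.trans (mul_le_of_le_one_left hℓ0 hκ1)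
    -- powers of `2 R1`
    have hpow : (2 * R1) ^ n ≤ Real.exp (ε * ℓ) := by
      have h1 : (2 * R1) ^ n = Real.exp (n * Real.log (2 * R1)) := by
        rw [Real.exp_nat_mul, Real.exp_log (by linarith)]
      rw [h1]
      refine Real.exp_le_exp.2 ?_
      calc (n : ℝ) * Real.log (2 * R1) ≤ κ * ℓ * Real.log (2 * R1) := by gcongr
        _ = κ * Real.log (2 * R1) * ℓ := by ring
        _ ≤ ε * ℓ := by gcongr
    -- the points of `s` are left of `1/2 + a + j`
    have hsre : ∀ ρ ∈ s, ρ.re < 1 / 2 + a + j := by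
      intro ρ hρ
      obtain ⟨h1, h2⟩ := hs ρ hρ
      rw [mem_closedBall, dist_eq_norm] at h1
      obtain ⟨h3, h4, h5⟩ := hbox ρ (h1.trans hrR1.le)
      by_contra hcon
      push Not at hcon
      exact (hfar2 ρ hcon h4 h5).1 h2
    -- the function `b`
    obtain ⟨b, hb⟩ : ∃ b : ℂ → ℂ, b = fun w => g w * cexp (-(ℓ * (w - c))) / F c := ⟨_, rfl⟩
    have hFcpos : 0 < ‖F c‖ := norm_pos_iff.2 hFc0
    have hexpn : ∀ w : ℂ, ‖cexp (-(ℓ * (w - c)))‖ = Real.exp (-(ℓ * (w.re - c.re))) := by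
      intro w
      rw [Complex.norm_exp]
      simp
    have hbn : ∀ w, ‖b w‖ = ‖g w‖ * Real.exp (-(ℓ * (w.re - c.re))) / ‖F c‖ := by
      intro w
      rw [hb]
      simp only
      rw [norm_div, norm_mul, hexpn]
    have hFn : ∀ w, ‖F w‖ = ‖F c‖ * ‖H370.Loc.Pf s w‖ * ‖b w‖ * Real.exp (ℓ * (w.re - c.re)) := by
      intro w
      rw [hbn, hfg w, norm_mul, Real.exp_neg]
      field_simp
    -- (1) differentiable
    have hbd : DifferentiableOn ℂ b (ball c r) := by
      intro w hw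
      have hw' : w ∈ closedBall c R1 :=
        closedBall_subset_closedBall hrR1.le (ball_subset_closedBall hw)
      have h1 : DifferentiableAt ℂ g w := (hg w hw').differentiableAt
      rw [hb]
      refine DifferentiableAt.differentiableWithinAt ?_
      refine (h1.mul ?_).div_const _
      fun_prop
    -- (2) crude bound
    have hbA : ∀ w ∈ ball c r, b w ≠ 0 ∧ ‖b w‖ ≤ Real.exp (A0 * ℓ) := by
      intro w hw
      have hw0 : w ∈ closedBall c r := ball_subset_closedBall hw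
      have hw' : w ∈ closedBall c R1 := closedBall_subset_closedBall hrR1.le hw0
      refine ⟨?_, ?_⟩
      · rw [hb]
        exact div_ne_zero (mul_ne_zero (hg0 w hw0) (Complex.exp_ne_zero _)) hFc0
      · have h1 := hgb w hw'
        have h2 : R1 - r = α / 4 := by rw [hr]; ring
        rw [h2] at h1
        have h3 : |w.re - c.re| ≤ R1 := (habs w R1 (by
          rwa [mem_closedBall, dist_eq_norm] at hw')).1
        rw [abs_le] at h3
        have h4 : Real.exp (-(ℓ * (w.re - c.re))) ≤ Real.exp (ℓ * R1) := by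
          refine Real.exp_le_exp.2 ?_
          have := mul_le_mul_of_nonneg_left h3.1 hℓ0
          linarith
        have h5 : M * Real.exp (-K') ≤ ‖F c‖ := by
          refine le_trans ?_ hFclo
          gcongr
          have : 0 ≤ ℓ * (c.re - 1 / 2) := by
            refine mul_nonneg (by linarith) ?_
            rw [hcre]; linarith
          linarith
        have h6 : (α / 4) ^ n = Real.exp (-(n * Real.log (4 / α))) := by
          rw [Real.exp_neg, Real.exp_nat_mul, Real.exp_log (by positivity), ← inv_pow, inv_div]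
        have h7 : (0:ℝ) < α / 4 := by positivity
        rw [hbn]
        calc ‖g w‖ * Real.exp (-(ℓ * (w.re - c.re))) / ‖F c‖
            ≤ (M * Real.exp (K2 * ℓ) / (α / 4) ^ n) * Real.exp (ℓ * R1) / (M * Real.exp (-K')) := by
              gcongr
          _ = Real.exp (K2 * ℓ + n * Real.log (4 / α) + ℓ * R1 + K') := by
              rw [h6, Real.exp_add, Real.exp_add, Real.exp_add, Real.exp_neg, Real.exp_neg]
              field_simp
          _ ≤ _ := by
              refine Real.exp_le_exp.2 ?_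
              rw [hA0]
              have h8 : (n : ℝ) * Real.log (4 / α) ≤ ℓ * Real.log (4 / α) := by gcongr
              have h9 : K' ≤ K' * ℓ := le_mul_of_one_le_right (by linarith) (by linarith)
              linarith
    -- (3) near the centre
    have hbη : ∀ w ∈ ball c 1, Real.exp (-(η * ℓ)) ≤ ‖b w‖ ∧ ‖b w‖ ≤ Real.exp (η * ℓ) := by
      intro w hw
      rw [mem_ball, dist_eq_norm] at hw
      obtain ⟨h1, h2⟩ := habs w 1 hw.le
      obtain ⟨g1, g2, g3⟩ := hbox w (by linarith)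
      rw [abs_le] at h1
      obtain ⟨-, hwlo, hwup⟩ := hfar2 w (by rw [hcre, hR1] at h1; linarith [h1.1]) g2 g3
      have hP1 : 1 ≤ ‖H370.Loc.Pf s w‖ := by
        have := H370.Loc.Pf_norm_ge (s := s) (z := w) (a := 1) zero_le_one (fun ρ hρ => by
          have h3 := hsre ρ hρ
          have h4 := Complex.re_le_norm (w - ρ)
          rw [Complex.sub_re] at h4
          rw [hcre, hR1] at h1
          linarith [h1.1])
        simpa using this
      have hP2 : ‖H370.Loc.Pf s w‖ ≤ (2 * R1) ^ n := by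
        rw [hn]
        refine H370.Loc.Pf_norm_le (fun ρ hρ => ?_)
        obtain ⟨h3, h4⟩ := hs ρ hρ
        rw [mem_closedBall, dist_eq_norm] at h3
        calc ‖w - ρ‖ = ‖(w - c) - (ρ - c)‖ := by congr 1; ring
          _ ≤ ‖w - c‖ + ‖ρ - c‖ := norm_sub_le _ _
          _ ≤ 2 * R1 := by linarith
      have hFw := hFn w
      have hbnn : 0 ≤ ‖b w‖ := norm_nonneg _
      obtain ⟨E, hE⟩ : ∃ E : ℝ, E = Real.exp (ℓ * (w.re - c.re)) := ⟨_, rfl⟩
      have hE0 : 0 < E := by rw [hE]; exact Real.exp_pos _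
      obtain ⟨Ec, hEc⟩ : ∃ Ec : ℝ, Ec = Real.exp (ℓ * (c.re - 1 / 2)) := ⟨_, rfl⟩
      have hEc0 : 0 < Ec := by rw [hEc]; exact Real.exp_pos _
      have hEE : Real.exp (ℓ * (w.re - 1 / 2)) = Ec * E := by
        rw [hE, hEc, ← Real.exp_add]; congr 1; ring
      obtain ⟨k, hk⟩ : ∃ k : ℝ, k = Real.exp K' := ⟨_, rfl⟩
      have hk0 : 0 < k := by rw [hk]; exact Real.exp_pos _
      have hk2 : Real.exp (2 * K') = k * k := by rw [hk, ← Real.exp_add]; congr 1; ring
      rw [Real.exp_sub, hEE, ← hk] at hwlo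
      rw [Real.exp_add, hEE, ← hk] at hwup
      rw [Real.exp_sub, ← hEc, ← hk] at hFclo
      rw [Real.exp_add, ← hEc, ← hk] at hFcup
      rw [← hE] at hFw
      rw [hk2] at hbig
      constructor
      · -- lower bound
        have e1 : M * (Ec * E / k) ≤ (M * Q * (Ec * k)) * (2 * R1) ^ n * ‖b w‖ * E := by
          refine hwlo.trans ?_
          rw [hFw]
          gcongr
        have e2 : 1 ≤ (Q * (k * k)) * (2 * R1) ^ n * ‖b w‖ := by
          have e3 : M * (Ec * E / k) * 1 ≤ M * (Ec * E / k) * ((Q * (k * k)) * (2 * R1) ^ n * ‖b w‖) := by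
            calc M * (Ec * E / k) * 1 ≤ (M * Q * (Ec * k)) * (2 * R1) ^ n * ‖b w‖ * E := by
                  rw [mul_one]; exact e1
              _ = _ := by field_simp
          exact le_of_mul_le_mul_left e3 (by positivity)
        have e4 : 1 ≤ Real.exp (η * ℓ) * ‖b w‖ := by
          refine e2.trans ?_
          refine mul_le_mul_of_nonneg_right ?_ hbnn
          calc Q * (k * k) * (2 * R1) ^ n ≤ Real.exp (ε * ℓ) * Real.exp (ε * ℓ) := by
                gcongr
            _ = Real.exp (ε * ℓ + ε * ℓ) := by rw [Real.exp_add]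
            _ ≤ _ := by
              refine Real.exp_le_exp.2 ?_
              linarith
        rw [Real.exp_neg, inv_le_iff_one_le_mul₀' (Real.exp_pos _)]
        exact e4
      · -- upper bound
        have e1 : (M * (Ec / k)) * 1 * ‖b w‖ * E ≤ M * Q * (Ec * E * k) := by
          refine le_trans ?_ hwup
          rw [hFw]
          gcongr
        have e2 : ‖b w‖ ≤ Q * (k * k) := by
          have e3 : (M * (Ec / k) * E) * ‖b w‖ ≤ (M * (Ec / k) * E) * (Q * (k * k)) := by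
            calc (M * (Ec / k) * E) * ‖b w‖ = (M * (Ec / k)) * 1 * ‖b w‖ * E := by ring
              _ ≤ M * Q * (Ec * E * k) := e1
              _ = _ := by field_simp
          exact le_of_mul_le_mul_left e3 (by positivity)
        refine e2.trans (hbig.trans (Real.exp_le_exp.2 ?_))
        linarith
    -- (4) propagation
    have hzc : ‖z - c‖ ≤ R1 - α := by
      have h1 : z - c = ((z.re - c.re : ℝ) : ℂ) := by
        apply Complex.ext
        · simp
        · simp [hcim]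
      rw [h1, Complex.norm_real, Real.norm_eq_abs, abs_le]
      rw [hcre]
      constructor
      · linarith
      · linarith
    have hbz := (hpr b c ℓ (by linarith) hbd hbA hbη z hzc).2
    -- (5) conclusion
    have hPz : ‖H370.Loc.Pf s z‖ ≤ (2 * R1) ^ n := by
      rw [hn]
      refine H370.Loc.Pf_norm_le (fun ρ hρ => ?_)
      obtain ⟨h3, h4⟩ := hs ρ hρ
      rw [mem_closedBall, dist_eq_norm] at h3
      calc ‖z - ρ‖ = ‖(z - c) - (ρ - c)‖ := by congr 1; ring
        _ ≤ ‖z - c‖ + ‖ρ - c‖ := norm_sub_le _ _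
        _ ≤ 2 * R1 := by linarith
    calc ‖F z‖ = ‖F c‖ * ‖H370.Loc.Pf s z‖ * ‖b z‖ * Real.exp (ℓ * (z.re - c.re)) := hFn z
      _ ≤ (M * Q * Real.exp (ℓ * (c.re - 1 / 2) + K')) * Real.exp (ε * ℓ) * Real.exp (e / 4 * ℓ) *
            Real.exp (ℓ * (z.re - c.re)) := by
          gcongr
          exact hPz.trans hpow
      _ = M * (Real.exp (ℓ * (c.re - 1 / 2)) * Real.exp (ℓ * (z.re - c.re))) * (Q * Real.exp K') *
            Real.exp (ε * ℓ) * Real.exp (e / 4 * ℓ) := by rw [Real.exp_add]; ring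
      _ ≤ M * (Real.exp (ℓ * (c.re - 1 / 2)) * Real.exp (ℓ * (z.re - c.re))) * Real.exp (ε * ℓ) *
            Real.exp (ε * ℓ) * Real.exp (e / 4 * ℓ) := by gcongr
      _ = M * Real.exp (ℓ * (c.re - 1 / 2) + ℓ * (z.re - c.re) + ε * ℓ + ε * ℓ + e / 4 * ℓ) := by
          rw [Real.exp_add, Real.exp_add, Real.exp_add, Real.exp_add]; ring
      _ ≤ M * Real.exp (ℓ * (z.re - 1 / 2 + e)) := by
          refine mul_le_mul_of_nonneg_left (Real.exp_le_exp.2 ?_) hM.le
          linarith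

end Pool.Agent.H196.B
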